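import Pool.Agent.Mg.F47c36b.Ga39e4b

open Pool.Agent.MP_47c36b_co

/-- Q1: for every ordered graph `H`, the function `x ↦ f(x,H) = 1 - 1 / chiStar x H` is
piecewise linear on `(0,1)`. -/
theorem Pool.Agent.Results.MP_47c36b_co.PiecewiseLinear.result (h : ℕ)
    (H : SimpleGraph (Fin h)) :
    ∃ J : Set (Set ℝ), J.Finite ∧ ⋃₀ J = Set.Ioo 0 1 ∧
      ∀ I ∈ J, I.OrdConnected ∧ I.Nontrivial ∧
        ∃ a b : ℝ, ∀ x ∈ I, 1 - 1 / chiStar x H = a * x + b :=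
  piecewise H
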